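import Pool.Agent.R393.UH.LimC

/-!
Rational curves of bounded degree on the fibres of a family; entire curves of bounded complexity.
-/

set_option autoImplicit false

namespace Pool.Agent.R393.UK

open MvPolynomial Pool.Agent.Y377.ST
open Pool.Agent.R393.UO Pool.Agent.R393.UF Pool.Agent.R393.UD Pool.Agent.R393.UH

/-- rational curves on the specialisations of a variety -/
theorem spec_fibre {A κ K : Type} [CommRing A] [Field κ] [IsAlgClosed κ] [Field K]
    (α0 : A →+* κ) (β0 : A →+* K) (h : ∀ a, β0 a = 0 → α0 a = 0)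
    {n : ℕ} (p : Fin (n + 1) → Polynomial K) (N : ℕ) (hN : ∀ i, (p i).natDegree ≤ N)
    {ι : Type} (F : ι → MvPolynomial (Fin (n + 1)) A) (hhom : ∀ i, ∃ e, (F i).IsHomogeneous e)
    (hF : ∀ i, eval₂ (Polynomial.C.comp β0) p (F i) = 0)
    (hc : ∃ i j, p i * Polynomial.C ((p j).eval 1) ≠ p j * Polynomial.C ((p i).eval 1)) :
    ∃ p' : Fin (n + 1) → Polynomial κ, (∀ i, (p' i).natDegree ≤ N) ∧
      (∀ i, eval₂ (Polynomial.C.comp α0) p' (F i) = 0) ∧
      ∃ i j, p' i * Polynomial.C ((p' j).eval 1) ≠ p' j * Polynomial.C ((p' i).eval 1) := by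
  classical
  obtain ⟨O, f1, hf1, hres⟩ := dominate β0 α0 h
  obtain ⟨i0, hi0⟩ := Finite.exists_max (fun i => O.valuation ((p i).eval 1))
  have hne : (p i0).eval 1 ≠ 0 := by
    intro h0
    obtain ⟨i, j, h1⟩ := hc
    apply h1
    have h2 : ∀ i, (p i).eval 1 = 0 := by
      intro i
      have h3 := hi0 i
      beta_reduce at h3
      rw [h0, map_zero] at h3
      exact (Valuation.zero_iff _).1 (le_antisymm h3 zero_le)
    rw [h2, h2, Polynomial.C_0, mul_zero, mul_zero]
  have hle : ∀ i, O.valuation ((p i).eval 1 / (p i0).eval 1) ≤ 1 := by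
    intro i
    rw [map_div₀]
    exact div_le_one_of_le₀ (hi0 i) zero_le
  let c : Fin (n + 1) → O := fun i =>
    ⟨(p i).eval 1 / (p i0).eval 1, (O.valuation_le_one_iff _).1 (hle i)⟩
  have hc0 : c i0 = 1 := Subtype.ext (div_self hne)
  obtain ⟨W, iW, α, p1, e1, e2, e3, e4⟩ := spec_curve ((IsLocalRing.residue O).comp f1) β0
    (fun i => IsLocalRing.residue O (c i)) ⟨i0, by
      beta_reduce
      rw [hc0, map_one]
      exact one_ne_zero⟩ (fun i => (p i).eval 1)
    (fun G d hG hz => by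
      have h1 : eval₂ f1 c G = 0 := by
        apply (map_eq_zero_iff O.subtype Subtype.val_injective).1
        rw [hom_eval₂]
        have h2 : O.subtype.comp f1 = β0 := RingHom.ext hf1
        have h3 : (fun i => O.subtype (c i)) = fun i => ((p i0).eval 1)⁻¹ * (p i).eval 1 := by
          funext i
          change (p i).eval 1 / (p i0).eval 1 = _
          rw [div_eq_inv_mul]
        rw [h2, h3, scale_eval _ _ _ hG, hz, mul_zero]
      rw [← hom_eval₂, h1, map_zero]) p 1 one_ne_zero (fun j => (one_mul _).symm) N hN F hhom hF hc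
  obtain ⟨V, iV, α', β', hαβ⟩ := amalg α0 (α.comp ((IsLocalRing.residue O).comp f1)) (fun a => by
    rw [hres a]
    exact (map_eq_zero α).symm)
  have hcomp : α'.comp α0 = β'.comp (α.comp ((IsLocalRing.residue O).comp f1)) :=
    RingHom.ext hαβ
  obtain ⟨p3, g1, g2, -, g3⟩ := spec_gen α' α0 F (fun j => (p1 j).map β') (fun i => by
    rw [hcomp, ← Pool.Agent.R393.UH.map_eval₂, e2, Polynomial.map_zero]) (by
    obtain ⟨i, j, h1⟩ := e4
    refine ⟨i, j, fun h2 => h1 ?_⟩
    apply Polynomial.map_injective β' β'.injective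
    rw [Polynomial.map_mul, Polynomial.map_mul, Polynomial.map_C, Polynomial.map_C,
      ← eval_one_map' β' (p1 j), ← eval_one_map' β' (p1 i)]
    exact h2)
  exact ⟨p3, fun i => (g1 i).trans (Polynomial.natDegree_map_le.trans (e1 i)), g2, g3⟩

/-- a good base point -/
theorem shift_curve {n D : ℕ} {ι : Type} {F : ι → MvPolynomial (Fin (n + 1)) ℂ}
    {p : Fin (n + 1) → Polynomial ℂ} (hp : ∀ i, (p i).natDegree ≤ D) (hc : RatCurve F p) :
    ∃ p' : Fin (n + 1) → Polynomial ℂ, (∀ i, (p' i).natDegree ≤ D) ∧ (∀ i, aeval p' (F i) = 0) ∧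
      ∃ i j, p' i * Polynomial.C ((p' j).eval 1) ≠ p' j * Polynomial.C ((p' i).eval 1) := by
  obtain ⟨h1, t, s, i, j, h2⟩ := hc
  have hi : ∃ l, (p l).eval t ≠ 0 := by
    by_contra hcon
    push Not at hcon
    apply h2
    rw [hcon, hcon, zero_mul, zero_mul]
  obtain ⟨l, hl⟩ := hi
  refine ⟨fun i => (p i).comp (Polynomial.X + Polynomial.C (t - 1)), fun i => ?_, fun i => ?_,
    cross_of ⟨t - (t - 1), s - (t - 1), i, j, ?_⟩ ⟨l, ?_⟩⟩
  · rw [Polynomial.natDegree_comp, Polynomial.natDegree_X_add_C, mul_one]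
    exact hp i
  · apply Polynomial.funext
    intro w
    rw [← ev_poly]
    simp only [eval_shift]
    rw [ev_poly, h1 i, Polynomial.eval_zero, Polynomial.eval_zero]
  · simp only [eval_shift, sub_add_cancel]
    exact h2
  · rw [eval_shift, add_sub_cancel]
    exact hl

/-- **The fibres which contain rational curves of degree at most `D` form a closed set.** -/
theorem closed_rat {n : ℕ} {ι : Type} [Fintype ι] {A : Type} [CommRing A]
    (F : ι → MvPolynomial (Fin (n + 1)) A) (hhom : ∀ i, ∃ e, (F i).IsHomogeneous e) (D : ℕ)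
    (φ0 : A →+* ℂ) (h : ∀ a, φ0 a ≠ 0 → ∃ φ : A →+* ℂ, φ a ≠ 0 ∧
      ∃ p : Fin (n + 1) → Polynomial ℂ, (∀ i, (p i).natDegree ≤ D) ∧
        RatCurve (fun i => map φ (F i)) p) :
    ∃ p : Fin (n + 1) → Polynomial ℂ, (∀ i, (p i).natDegree ≤ D) ∧
        RatCurve (fun i => map φ0 (F i)) p := by
  classical
  let Sc : Finset A := Finset.univ.biUnion fun i => (F i).coeffs
  let k : Subalgebra ℤ A := Algebra.adjoin ℤ (Sc : Set A)
  have hk : Countable k := by
    have hft : Algebra.FiniteType ℤ k :=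
      (Subalgebra.fg_iff_finiteType _).1 (Subalgebra.fg_adjoin_finset Sc)
    exact countable_of_ft k
  let kv : k →+* A := k.val.toRingHom
  have hkv : Function.Injective kv := Subtype.val_injective
  have hlift : ∀ i, ∃ P0 : MvPolynomial (Fin (n + 1)) k, map kv P0 = F i := by
    intro i
    have h1 : F i ∈ Set.range (map kv : MvPolynomial (Fin (n + 1)) k →+* _) := by
      rw [mem_range_map_iff_coeffs_subset]
      intro c hc
      exact ⟨⟨c, Algebra.subset_adjoin (Finset.mem_coe.2 (Finset.mem_biUnion.2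
        ⟨i, Finset.mem_univ i, Finset.mem_coe.1 hc⟩))⟩, rfl⟩
    exact h1
  choose FA hFA using hlift
  have hFAh : ∀ i, ∃ e, (FA i).IsHomogeneous e := by
    intro i
    obtain ⟨e, he⟩ := hhom i
    refine ⟨e, fun m hm => ?_⟩
    apply he
    rw [← hFA, coeff_map]
    intro h0
    exact hm (hkv (by rw [h0, map_zero]))
  let S : Type := {a : k // φ0 (kv a) ≠ 0}
  have hne : Nonempty S := ⟨⟨1, by rw [map_one, map_one]; exact one_ne_zero⟩⟩
  obtain ⟨en, hen⟩ := exists_surjective_nat S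
  let Q : ℕ → k := fun i => ∏ j ∈ Finset.range (i + 1), (en j).1
  have hQ : ∀ i, φ0 (kv (Q i)) ≠ 0 := by
    intro i
    change φ0 (kv (∏ j ∈ Finset.range (i + 1), (en j).1)) ≠ 0
    rw [map_prod, map_prod]
    exact Finset.prod_ne_zero_iff.2 fun j _ => (en j).2
  choose φ hφ p hp1 hp2 using fun t => h (kv (Q t)) (hQ t)
  choose q hq1 hq2 hq3 using fun t => shift_curve (hp1 t) (hp2 t)
  obtain ⟨Θ, hΘ⟩ := Pool.Agent.Y455.ST.t_THETA
  obtain ⟨p', k1, -, k3, k4⟩ := lim_curve hΘ D q hq1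
  let Φ : k →+* (ℕ → ℂ) := RingHom.pi fun t => (φ t).comp kv
  have hΦT : ∀ t, (Pi.evalRingHom (fun _ : ℕ => ℂ) t).comp Φ = (φ t).comp kv := fun t =>
    RingHom.ext fun a => rfl
  obtain ⟨p3, g1, g2, i, j, g3⟩ := spec_fibre (φ0.comp kv) (Θ.comp Φ) (fun a ha => by
    by_contra hcon
    obtain ⟨m, hm⟩ := hen ⟨a, hcon⟩
    obtain ⟨-, h2⟩ := theta_ne hΘ (fun (_ : Unit) t => φ t (kv a)) m (fun t ht => ⟨(), by
      intro h1
      apply hφ t
      have h2 : a ∣ Q t := by
        have h3 := Finset.dvd_prod_of_mem (fun j => (en j).1)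
          (Finset.mem_range.2 (by omega : m < t + 1))
        beta_reduce at h3
        rw [hm] at h3
        exact h3
      obtain ⟨c, hc⟩ := h2
      rw [hc, map_mul, map_mul, h1, zero_mul]⟩)
    exact h2 ha) p' D k1 FA hFAh
    (fun i => k3 k Φ (FA i) (fun t => by
      rw [hΦT]
      have h1 : aeval (q t) (map (φ t) (F i)) = 0 := hq2 t i
      rw [← hFA, map_map, aeval_def, eval₂_map] at h1
      exact h1)) (k4 0 fun t _ => hq3 t)
  refine ⟨p3, g1, fun i => ?_, nc_of g3⟩
  change aeval p3 (map φ0 (F i)) = 0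
  rw [← hFA, map_map, aeval_def, eval₂_map]
  exact g2 i

/-- **Openness of hyperbolicity with respect to entire curves of bounded complexity.** -/
theorem open_ent {n d : ℕ} {ι : Type} [Finite ι] {A : Type} [CommRing A]
    (F : ι → MvPolynomial (Fin (n + 1)) A) (hF : ∀ i, ∃ a, a ≤ d ∧ (F i).IsHomogeneous a)
    (s r e : ℕ) (φ0 : A →+* ℂ)
    (h : ∀ p : Fin (n + 1) → Polynomial ℂ, (∀ i, (p i).natDegree ≤ BP n d s r e) →
      ¬ RatCurve (fun i => map φ0 (F i)) p) :
    ∃ a, φ0 a ≠ 0 ∧ ∀ φ : A →+* ℂ, φ a ≠ 0 → ∀ x, ¬ EntCurve s r e (fun i => map φ (F i)) x := by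
  classical
  have : Fintype ι := Fintype.ofFinite ι
  by_contra hcon
  push Not at hcon
  obtain ⟨p, h1, h2⟩ := closed_rat F (fun i => by obtain ⟨a, -, ha⟩ := hF i; exact ⟨a, ha⟩)
    (BP n d s r e) φ0 (fun a ha => by
      obtain ⟨φ, h1, x, hx⟩ := hcon a ha
      refine ⟨φ, h1, ?_⟩
      obtain ⟨B, hB, h2⟩ := on_rat_all (d := d) (fun i => map φ (F i)) (fun i => by
        obtain ⟨a, ha, hi⟩ := hF i
        exact ⟨a, ha, hi.map φ⟩) hx
      obtain ⟨z, hz⟩ : ∃ z, z ∉ B := by
        by_contra hc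
        push Not at hc
        exact not_countable_complex (hB.mono fun z _ => hc z)
      obtain ⟨-, p, p1, p2, -⟩ := h2 z hz
      exact ⟨p, p1, p2⟩)
  exact h p h1 h2

end Pool.Agent.R393.UK
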